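import Pool.Agent.R639.NK.Final

/-!
# MP_41a35f_al, Q1: the answer is negative

For every real polynomial `p` there is a `τ`-group `G` such that for every Mal'cev basis `a` of
`G` (its length `N` is the Hirsch length of `G`) Nickel's module `M(a)` has dimension `> p(N)`.
The group is the group of substitutions `X + c_1 X^2 + ⋯ + c_n X^(n+1)` modulo `X^(n+2)` with
integer coefficients.
-/

namespace Pool.Agent.Results.MP_41a35f_al.NotPolynomial

open NK639

theorem result : ∀ p : Polynomial ℝ, ∃ (G : Type) (_ : Group G), IsTauGroup G ∧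
    (∃ (N : ℕ) (a : Fin N → G), IsMalcevBasis a) ∧
    ∀ (N : ℕ) (a : Fin N → G) (ha : IsMalcevBasis a), ∃ d : ℕ,
      (d : Cardinal) ≤ Module.rank ℚ (nickelModule a ha) ∧ p.eval (N : ℝ) < (d : ℝ) :=
  NK639.final

end Pool.Agent.Results.MP_41a35f_al.NotPolynomial
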